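import Pool.Agent.W_79d227_h37.Trans

/-!
# Multiplication by a vertex-transitive graph: the duality
-/

set_option autoImplicit false

namespace Pool.Agent.W_79d227_h37

open Pool.Agent.W_79d227_h9 Pool.Agent.W_66dfad_zo

theorem powG_transitive {V : Type} {H : SimpleGraph V} (hH : VertexTransitive H) (m : ℕ) :
    VertexTransitive (powG H m) := by
  intro u v
  choose φ hφ using fun i : Fin m => hH (u i) (v i)
  refine ⟨⟨Equiv.piCongrRight fun i => (φ i).toEquiv, ?_⟩, ?_⟩
  · intro x y
    constructor
    · rintro ⟨h1, h2⟩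
      refine ⟨fun e => h1 (by rw [e]), fun i => ?_⟩
      rcases h2 i with h | h
      · exact Or.inl ((φ i).injective h)
      · exact Or.inr ((φ i).map_adj_iff.1 h)
    · rintro ⟨h1, h2⟩
      refine ⟨fun e => h1 ((Equiv.piCongrRight fun i => (φ i).toEquiv).injective e), fun i => ?_⟩
      rcases h2 i with h | h
      · exact Or.inl (congrArg (φ i) h)
      · exact Or.inr ((φ i).map_adj_iff.2 h)
  · funext i
    exact hφ i

theorem shannonCap_nonneg {V : Type} [Fintype V] (G : SimpleGraph V) : 0 ≤ shannonCap V G :=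
  shannonCap_alphaBound.nonneg V G

theorem shannonCap_le_card {V : Type} [Fintype V] (G : SimpleGraph V) :
    shannonCap V G ≤ Fintype.card V := by
  classical
  refine shannonCap_le (Nat.cast_nonneg _) fun n S _ _ => ?_
  have := Finset.card_le_univ S
  rw [Fintype.card_fun, Fintype.card_fin] at this
  exact_mod_cast this

/-- `S(G ^ m) ≤ S(G) ^ m` -/
theorem cap_powG {U : Type} [Fintype U] (G : SimpleGraph U) {m : ℕ} (hm : 1 ≤ m) :
    shannonCap (Fin m → U) (powG G m) ≤ shannonCap U G ^ m := by
  classical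
  refine shannonCap_le (pow_nonneg (shannonCap_nonneg G) m) fun n S hn hS => ?_
  let e : (Fin n → Fin m → U) → (Fin (n * m) → U) := fun x j =>
    x (finProdFinEquiv.symm j).1 (finProdFinEquiv.symm j).2
  have he : ∀ x i j, e x (finProdFinEquiv (i, j)) = x i j := by
    intro x i j
    change x (finProdFinEquiv.symm (finProdFinEquiv (i, j))).1
      (finProdFinEquiv.symm (finProdFinEquiv (i, j))).2 = x i j
    rw [Equiv.symm_apply_apply]
  have hinj : Function.Injective e := by
    intro x y h
    funext i j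
    rw [← he x, ← he y, h]
  have hcode : IsCode G (S.image e) := by
    intro x hx y hy hxy
    obtain ⟨a, ha, rfl⟩ := Finset.mem_image.1 hx
    obtain ⟨b, hb, rfl⟩ := Finset.mem_image.1 hy
    have hab : a ≠ b := fun h => hxy (by rw [h])
    obtain ⟨i, hi⟩ := hS a ha b hb hab
    obtain ⟨j, hj⟩ := not_powG_adj.1 hi
    exact ⟨finProdFinEquiv (i, j), by rw [he, he]; exact hj⟩
  have h1 := le_shannonCap_pow (Nat.mul_pos (by omega) (by omega)) hcode
  rw [Finset.card_image_of_injective _ hinj] at h1
  rw [← pow_mul, mul_comm m n]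
  exact h1

/-- one power: a large capacity of the complement of the `m`-th power bounds the codes of length
`m` of the product -/
theorem dual_one {V : Type} [Fintype V] [Nonempty V] {H : SimpleGraph V} (hH : VertexTransitive H)
    {D : ℝ} (hD : 0 < D) {m : ℕ} (hm : 1 ≤ m)
    (hcap : D ^ m ≤ shannonCap (Fin m → V) (powG H m)ᶜ)
    {U : Type} [Fintype U] (G : SimpleGraph U) (T : Finset (Fin m → U × V))
    (hT : IsCode (strong G H) T) :
    (T.card : ℝ) ≤ (Fintype.card V / D * shannonCap U G) ^ m := by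
  classical
  have hN : (0 : ℝ) < Fintype.card V := by exact_mod_cast Fintype.card_pos
  have hS0 := shannonCap_nonneg G
  rcases Nat.eq_zero_or_pos T.card with h0 | hpos
  · rw [h0]
    push_cast
    positivity
  have hT0 : (0 : ℝ) < T.card := by exact_mod_cast hpos
  let e : (Fin m → U × V) → (Fin m → U) × (Fin m → V) := fun x =>
    (fun i => (x i).1, fun i => (x i).2)
  have hinj : Function.Injective e := by
    intro x y h
    funext i
    exact Prod.ext (congrFun (congrArg Prod.fst h) i) (congrFun (congrArg Prod.snd h) i)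
  have hTind : ∀ a ∈ T.image e, ∀ b ∈ T.image e, a ≠ b →
      ¬ (strong (powG G m) (powG H m)).Adj a b := by
    intro a ha b hb hab
    obtain ⟨x, hx, rfl⟩ := Finset.mem_image.1 ha
    obtain ⟨y, hy, rfl⟩ := Finset.mem_image.1 hb
    have hxy : x ≠ y := fun h => hab (by rw [h])
    obtain ⟨i, hi1, hi2⟩ := hT x hx y hy hxy
    rintro ⟨-, h1, h2⟩
    apply hi2
    refine ⟨hi1, ?_, ?_⟩
    · rcases h1 with h | h
      · exact Or.inl (congrFun h i)
      · exact h.2 i
    · rcases h2 with h | h
      · exact Or.inl (congrFun h i)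
      · exact h.2 i
  have hcardT : (T.image e).card = T.card := Finset.card_image_of_injective _ hinj
  have hcardV : (Fintype.card (Fin m → V) : ℝ) = (Fintype.card V : ℝ) ^ m := by
    rw [Fintype.card_fun, Fintype.card_fin]
    push_cast
    rfl
  have key : shannonCap (Fin m → V) (powG H m)ᶜ ≤
      shannonCap U G ^ m * (Fintype.card V : ℝ) ^ m / T.card := by
    refine shannonCap_le (by positivity) fun n A hn hA => ?_
    obtain ⟨I, hI, hle⟩ := blow (powG G m) (powG H m) (powG_transitive hH m) (T.image e) hTind n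
      A hA
    rw [hcardT, hcardV] at hle
    have h1 : (I.card : ℝ) ≤ (shannonCap U G ^ m) ^ n :=
      (le_shannonCap_pow hn hI).trans
        (pow_le_pow_left₀ (shannonCap_nonneg _) (cap_powG G hm) n)
    have hq : 0 < ((T.card : ℝ) / (Fintype.card V : ℝ) ^ m) ^ n := by positivity
    have h2 : (A.card : ℝ) ≤ (shannonCap U G ^ m) ^ n /
        ((T.card : ℝ) / (Fintype.card V : ℝ) ^ m) ^ n := by
      rw [le_div_iff₀ hq]
      exact hle.trans h1
    refine h2.trans (le_of_eq ?_)
    rw [← div_pow]
    congr 1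
    field_simp
  have h3 := hcap.trans key
  rw [le_div_iff₀ hT0] at h3
  have hDm : 0 < D ^ m := pow_pos hD m
  calc (T.card : ℝ) = D ^ m * T.card / D ^ m := by field_simp
    _ ≤ shannonCap U G ^ m * (Fintype.card V : ℝ) ^ m / D ^ m :=
        div_le_div_of_nonneg_right h3 hDm.le
    _ = (Fintype.card V / D * shannonCap U G) ^ m := by
        rw [mul_pow, div_pow]
        ring

/-- powers of a code, filled up to length `m` -/
theorem code_power {W : Type} (X : SimpleGraph W) {n : ℕ} (S : Finset (Fin n → W))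
    (hS : IsCode X S) (w₀ : W) {q m : ℕ} (hm : q * n ≤ m) :
    ∃ T : Finset (Fin m → W), IsCode X T ∧ T.card = S.card ^ q := by
  classical
  let E : (Fin q → Fin n → W) → (Fin m → W) := fun y j =>
    if h : (j : ℕ) < q * n then
      y (finProdFinEquiv.symm ⟨j, h⟩).1 (finProdFinEquiv.symm ⟨j, h⟩).2 else w₀
  have hE : ∀ y i k, E y (Fin.castLE hm (finProdFinEquiv (i, k))) = y i k := by
    intro y i k
    have h : ((Fin.castLE hm (finProdFinEquiv (i, k)) : Fin m) : ℕ) < q * n :=
      (finProdFinEquiv (i, k)).2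
    change (if h : ((Fin.castLE hm (finProdFinEquiv (i, k)) : Fin m) : ℕ) < q * n then
      y (finProdFinEquiv.symm ⟨_, h⟩).1 (finProdFinEquiv.symm ⟨_, h⟩).2 else w₀) = y i k
    rw [dif_pos h]
    have h2 : (⟨((Fin.castLE hm (finProdFinEquiv (i, k)) : Fin m) : ℕ), h⟩ : Fin (q * n)) =
        finProdFinEquiv (i, k) := Fin.ext rfl
    rw [h2, Equiv.symm_apply_apply]
  have hinj : Function.Injective E := by
    intro x y h
    funext i k
    rw [← hE x, ← hE y, h]
  refine ⟨(Fintype.piFinset fun _ : Fin q => S).image E, ?_, ?_⟩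
  · intro x hx y hy hxy
    obtain ⟨a, ha, rfl⟩ := Finset.mem_image.1 hx
    obtain ⟨b, hb, rfl⟩ := Finset.mem_image.1 hy
    have hab : a ≠ b := fun h => hxy (by rw [h])
    obtain ⟨i, hi⟩ := Function.ne_iff.1 hab
    rw [Fintype.mem_piFinset] at ha hb
    obtain ⟨k, hk⟩ := hS (a i) (ha i) (b i) (hb i) hi
    exact ⟨Fin.castLE hm (finProdFinEquiv (i, k)), by rw [hE, hE]; exact hk⟩
  · rw [Finset.card_image_of_injective _ hinj, Fintype.card_piFinset_const]

theorem one_le_shannonCap {U : Type} [Fintype U] [Nonempty U] (G : SimpleGraph U) :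
    1 ≤ shannonCap U G := by
  obtain ⟨u⟩ := ‹Nonempty U›
  have := shannonCap_alphaBound U G {u} (by
    intro a ha b hb hab
    rw [Finset.mem_singleton] at ha hb
    exact absurd (ha.trans hb.symm) hab)
  simpa using this

/-- the first half: large capacities of the complements of infinitely many powers bound the
multiplication -/
theorem dual_le {V : Type} [Fintype V] [Nonempty V] {H : SimpleGraph V} (hH : VertexTransitive H)
    {D : ℝ} (hD : 0 < D)
    (hcap : ∃ᶠ m : ℕ in Filter.atTop, D ^ m ≤ shannonCap (Fin m → V) (powG H m)ᶜ)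
    (U : Type) [Fintype U] (G : SimpleGraph U) :
    shannonCap (U × V) (strong G H) ≤ Fintype.card V / D * shannonCap U G := by
  classical
  have hN : (0 : ℝ) < Fintype.card V := by exact_mod_cast Fintype.card_pos
  have hS0 := shannonCap_nonneg G
  refine shannonCap_le (by positivity) fun n S hn hS => ?_
  rcases Nat.eq_zero_or_pos S.card with h0 | hpos
  · rw [h0]
    push_cast
    positivity
  obtain ⟨x₀, hx₀⟩ := Finset.card_pos.1 hpos
  have hU : Nonempty U := ⟨(x₀ ⟨0, by omega⟩).1⟩
  set C : ℝ := Fintype.card V / D * shannonCap U G with hC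
  have hDN : D ≤ Fintype.card V := by
    obtain ⟨m, hm1, hm2⟩ := (hcap.and_eventually (Filter.eventually_ge_atTop 1)).exists
    have h1 := hm1.trans (shannonCap_le_card _)
    rw [Fintype.card_fun, Fintype.card_fin] at h1
    push_cast at h1
    exact (pow_le_pow_iff_left₀ hD.le hN.le (by omega)).1 h1
  have hC1 : 1 ≤ C := by
    have h1 : 1 ≤ (Fintype.card V : ℝ) / D := (one_le_div hD).2 hDN
    have h2 := one_le_shannonCap G
    rw [hC]
    nlinarith
  have hCn : 0 < C ^ n := by positivity
  by_contra hcon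
  rw [not_le] at hcon
  have hr : 1 < (S.card : ℝ) / C ^ n := (one_lt_div hCn).2 hcon
  obtain ⟨Q, hQ⟩ := pow_unbounded_of_one_lt (C ^ n) hr
  obtain ⟨m, hm1, hm2⟩ := (hcap.and_eventually (Filter.eventually_ge_atTop (n * Q + 1))).exists
  obtain ⟨T, hT, hTc⟩ := code_power (strong G H) S hS (x₀ ⟨0, by omega⟩)
    (Nat.div_mul_le_self m n)
  have h1 := dual_one hH hD (by omega) hm1 G T hT
  rw [hTc] at h1
  push_cast at h1
  have h2 : C ^ m ≤ (C ^ n) ^ (m / n) * C ^ n := by
    rw [← pow_mul, ← pow_add]
    apply pow_le_pow_right₀ hC1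
    have := Nat.lt_div_mul_add (a := m) (b := n) (by omega)
    rw [mul_comm n (m / n)]
    omega
  have h3 : ((S.card : ℝ) / C ^ n) ^ (m / n) ≤ C ^ n := by
    rw [div_pow, div_le_iff₀ (by positivity), mul_comm]
    exact h1.trans h2
  have h4 : Q ≤ m / n := by
    rw [Nat.le_div_iff_mul_le (by omega), mul_comm]
    omega
  have h5 := pow_le_pow_right₀ hr.le h4
  linarith

/-- the second half: a bound for the multiplication gives large capacities of the complements of
the powers (for every graph `H`) -/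
theorem le_dual {V : Type} [Fintype V] {H : SimpleGraph V} {c : ℝ} (hc : 0 < c)
    (hmul : ∀ (U : Type) [Fintype U] (G : SimpleGraph U),
      shannonCap (U × V) (strong G H) ≤ c * shannonCap U G) (m : ℕ) :
    (Fintype.card V / c) ^ m ≤ shannonCap (Fin m → V) (powG H m)ᶜ := by
  classical
  obtain ⟨U, i, P, hP1, hP2⟩ := AlphaBound.prod_pow (f := shannonCap) hc.le
    (fun U _ G => hmul U G) (powG H m)ᶜ m
  have h1 : ((Fintype.card (Fin m → V) : ℕ) : GS) ≤ cls P := by
    rw [hP1, ← cls_powG, ← cls_strong, ← cls_bot, cls_le]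
    refine ⟨fun j => ((Fintype.equivFin (Fin m → V)).symm j,
      (Fintype.equivFin (Fin m → V)).symm j), ?_⟩
    intro a b hab _
    have hne : (Fintype.equivFin (Fin m → V)).symm a ≠ (Fintype.equivFin (Fin m → V)).symm b :=
      fun h => hab ((Fintype.equivFin (Fin m → V)).symm.injective h)
    refine ⟨fun h => hne (congrArg Prod.fst h), ?_⟩
    rintro ⟨-, h1, h2⟩
    rcases h1 with h1 | h1
    · exact hne h1
    · rw [SimpleGraph.compl_adj] at h1
      rcases h2 with h2 | h2
      · exact hne h2
      · exact h1.2 h2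
  rw [← cls_bot, cls_le] at h1
  have h2 := (shannonCap_alphaBound.of_bot h1).trans hP2
  rw [Fintype.card_fun, Fintype.card_fin] at h2
  push_cast at h2
  rw [div_pow, div_le_iff₀ (pow_pos hc m), mul_comm]
  exact h2

/-- **the duality** -/
theorem duality {V : Type} [Fintype V] [Nonempty V] {H : SimpleGraph V}
    (hH : VertexTransitive H) {c : ℝ} (hc : 0 < c) :
    List.TFAE [
      ∀ (U : Type) [Fintype U] (G : SimpleGraph U),
        shannonCap (U × V) (strong G H) ≤ c * shannonCap U G,
      ∀ m : ℕ, 1 ≤ m → (Fintype.card V / c) ^ m ≤ shannonCap (Fin m → V) (powG H m)ᶜ,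
      ∃ᶠ m : ℕ in Filter.atTop, (Fintype.card V / c) ^ m ≤
        shannonCap (Fin m → V) (powG H m)ᶜ] := by
  have hN : (0 : ℝ) < Fintype.card V := by exact_mod_cast Fintype.card_pos
  tfae_have 1 → 2 := by
    intro h m _
    exact le_dual hc h m
  tfae_have 2 → 3 := by
    intro h
    exact ((Filter.eventually_ge_atTop 1).mono fun m hm => h m hm).frequently
  tfae_have 3 → 1 := by
    intro h U _ G
    have h1 := dual_le hH (D := Fintype.card V / c) (by positivity) h U G
    have h2 : (Fintype.card V : ℝ) / (Fintype.card V / c) = c := by field_simp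
    rwa [h2] at h1
  tfae_finish

/-- boundedness for `α ≤ k` -/
theorem small_k {V : Type} [Fintype V] [Nonempty V] {H : SimpleGraph V}
    (hH : VertexTransitive H) (k : ℕ) (C : ℝ)
    (hC : ∀ (W : Type) [Fintype W] (G : SimpleGraph W), AlphaLE G k → shannonCap W G ≤ C)
    (D : ℝ) (hD : 0 < D) (hDN : D ≤ Fintype.card V)
    (hq : (Fintype.card V / D) ^ k * cliqueProb H (fun _ => 1 / (Fintype.card V : ℝ)) k < 1) :
    ∀ᶠ m : ℕ in Filter.atTop, shannonCap (Fin m → V) (powG H m)ᶜ < D ^ m := by
  have hN : (0 : ℝ) < Fintype.card V := by exact_mod_cast Fintype.card_pos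
  by_contra hcon
  rw [Filter.not_eventually] at hcon
  have hfr : ∃ᶠ m : ℕ in Filter.atTop, D ^ m ≤ shannonCap (Fin m → V) (powG H m)ᶜ :=
    hcon.mono fun m hm => not_lt.1 hm
  obtain ⟨U, i, G, hG⟩ := capacity_criterion H (fun _ => 1 / (Fintype.card V : ℝ))
    (fun _ => by positivity) (by
      rw [Finset.sum_const, Finset.card_univ, nsmul_eq_mul]
      field_simp) k (Fintype.card V / D) ((one_le_div hD).2 hDN) hq C hC
  exact absurd (dual_le hH hD hfr U G) (not_le.2 hG)

/-- a positive answer to the question gives complements of powers of small capacity -/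
theorem small_compl {V : Type} [Fintype V] [Nonempty V] {H : SimpleGraph V}
    (hH : VertexTransitive H) (w : ℕ)
    (hw : ∀ Q : Finset V, (∀ a ∈ Q, ∀ b ∈ Q, a ≠ b → H.Adj a b) → Q.card ≤ w)
    (hg : ∀ k : ℕ, ∃ C : ℝ, ∀ (W : Type) [Fintype W] (G : SimpleGraph W), AlphaLE G k →
      shannonCap W G ≤ C) (D : ℝ) (hD : (w : ℝ) < D) :
    ∀ᶠ m : ℕ in Filter.atTop, shannonCap (Fin m → V) (powG H m)ᶜ < D ^ m := by
  classical
  have hN : (0 : ℝ) < Fintype.card V := by exact_mod_cast Fintype.card_pos
  have hw1 : 1 ≤ w := by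
    obtain ⟨v⟩ := ‹Nonempty V›
    have := hw {v} (by
      intro a ha b hb hab
      rw [Finset.mem_singleton] at ha hb
      exact absurd (ha.trans hb.symm) hab)
    simpa using this
  have hw0 : (0 : ℝ) < w := by exact_mod_cast (by omega : 0 < w)
  have hD0 : 0 < D := hw0.trans hD
  by_contra hcon
  rw [Filter.not_eventually] at hcon
  have hfr : ∃ᶠ m : ℕ in Filter.atTop, D ^ m ≤ shannonCap (Fin m → V) (powG H m)ᶜ :=
    hcon.mono fun m hm => not_lt.1 hm
  have hDN : D ≤ Fintype.card V := by
    obtain ⟨m, hm1, hm2⟩ := (hfr.and_eventually (Filter.eventually_ge_atTop 1)).exists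
    have h1 := hm1.trans (shannonCap_le_card _)
    rw [Fintype.card_fun, Fintype.card_fin] at h1
    push_cast at h1
    exact (pow_le_pow_iff_left₀ hD0.le hN.le (by omega)).1 h1
  obtain ⟨U, i, G, hG⟩ := capacity_question H (fun _ => 1 / (w : ℝ)) (fun _ => by positivity)
    (fun Q hQ => by
      rw [Finset.sum_const, nsmul_eq_mul, mul_one_div, div_le_one hw0]
      exact_mod_cast hw Q hQ)
    (Fintype.card V / D) ((one_le_div hD0).2 hDN) (by
      rw [Finset.sum_const, Finset.card_univ, nsmul_eq_mul, mul_one_div]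
      exact div_lt_div_of_pos_left hN hw0 hD) hg
  exact absurd (dual_le hH hD0 hfr U G) (not_le.2 hG)

theorem c5_transitive : VertexTransitive (SimpleGraph.cycleGraph 5) := by
  intro u v
  refine ⟨⟨Equiv.addRight (v - u), ?_⟩, ?_⟩
  · intro a b
    rw [c5_adj, c5_adj]
    simp only [Equiv.coe_addRight]
    constructor
    · rintro (h | h)
      · left
        have := congrArg (fun x => x - (v - u)) h
        simpa [add_sub_assoc, add_right_comm] using this
      · right
        have := congrArg (fun x => x - (v - u)) h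
        simpa [add_sub_assoc, add_right_comm] using this
    · rintro (h | h)
      · left
        rw [h]
        exact add_right_comm _ _ _
      · right
        rw [h]
        exact add_right_comm _ _ _
  · show u + (v - u) = v
    exact add_sub_cancel u v

/-- boundedness for `α ≤ 7` makes the capacity of the complements of the powers of the pentagon
exponentially smaller than their theta numbers `√5 ^ m` -/
theorem c5_small (C : ℝ)
    (hC : ∀ (W : Type) [Fintype W] (G : SimpleGraph W), AlphaLE G 7 → shannonCap W G ≤ C) :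
    ∀ᶠ m : ℕ in Filter.atTop,
      shannonCap (Fin m → Fin 5) (powG (SimpleGraph.cycleGraph 5) m)ᶜ < 2.21 ^ m := by
  refine small_k c5_transitive 7 C hC 2.21 (by norm_num) (by rw [Fintype.card_fin]; norm_num) ?_
  rw [Fintype.card_fin]
  push_cast
  have h1 := c5_cliqueProb 7
  calc (5 / 2.21 : ℝ) ^ 7 * cliqueProb (SimpleGraph.cycleGraph 5) (fun _ => 1 / (5 : ℝ)) 7
      ≤ (5 / 2.21 : ℝ) ^ 7 * (5 * (2 / 5) ^ (7 + 1)) :=
        mul_le_mul_of_nonneg_left h1 (by positivity)
    _ < 1 := by norm_num

/-- boundedness for `α ≤ 7` makes the pentagon multiply some capacity by more than `2.26` -/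
theorem c5_big (C : ℝ)
    (hC : ∀ (W : Type) [Fintype W] (G : SimpleGraph W), AlphaLE G 7 → shannonCap W G ≤ C) :
    ∃ (U : Type) (_ : Fintype U) (G : SimpleGraph U),
      2.26 * shannonCap U G < shannonCap (U × Fin 5) (strong G (SimpleGraph.cycleGraph 5)) := by
  refine capacity_criterion (SimpleGraph.cycleGraph 5) (fun _ => (1 : ℝ) / 5)
    (fun _ => by norm_num) (by simp) 7 2.26 (by norm_num) ?_ C hC
  calc (2.26 : ℝ) ^ 7 * cliqueProb (SimpleGraph.cycleGraph 5) (fun _ => (1 : ℝ) / 5) 7
      ≤ (2.26 : ℝ) ^ 7 * (5 * (2 / 5) ^ (7 + 1)) :=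
        mul_le_mul_of_nonneg_left (c5_cliqueProb 7) (by positivity)
    _ < 1 := by norm_num

end Pool.Agent.W_79d227_h37
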