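import Pool.Agent.Results.MP_79d227_co.ProductDefect

/-!
# The former statement of `ProductDefect` follows from the new one
-/

set_option autoImplicit false

namespace Pool.Agent.W_79d227_h37

open Pool.Agent.W_79d227_h9

theorem old_form :
    (∀ (V : Type) [Fintype V] (H : SimpleGraph V) (μ : V → ℝ), (∀ v, 0 ≤ μ v) → ∑ v, μ v = 1 →
      ∀ (k : ℕ) (c : ℝ), 1 ≤ c → c ^ k * cliqueProb H μ k < 1 →
      ∀ C : ℝ, (∀ (W : Type) [Fintype W] (G : SimpleGraph W), AlphaLE G k → shannonCap W G ≤ C) →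
      ∃ (U : Type) (_ : Fintype U) (G : SimpleGraph U),
        c * shannonCap U G < shannonCap (U × V) (strong G H)) ∧
    ((∃ g : ℕ → ℝ, ∀ (V : Type) [Fintype V] (G : SimpleGraph V) (k : ℕ),
        (∀ T : Finset V, (∀ a ∈ T, ∀ b ∈ T, a ≠ b → ¬ G.Adj a b) → T.card ≤ k) →
        ∀ (n : ℕ) (S : Finset (Fin n → V)),
          (∀ x ∈ S, ∀ y ∈ S, x ≠ y → ∃ i : Fin n, x i ≠ y i ∧ ¬ G.Adj (x i) (y i)) →
          (S.card : ℝ) ≤ g k ^ n) →
      ∀ (V : Type) [Fintype V] (H : SimpleGraph V) (x : V → ℝ), (∀ v, 0 ≤ x v) →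
        (∀ Q : Finset V, (∀ a ∈ Q, ∀ b ∈ Q, a ≠ b → H.Adj a b) → ∑ v ∈ Q, x v ≤ 1) →
        ∀ c : ℝ, 1 ≤ c → c < ∑ v, x v →
        ∃ (U : Type) (_ : Fintype U) (G : SimpleGraph U),
          c * shannonCap U G < shannonCap (U × V) (strong G H)) ∧
    (∀ C : ℝ, (∀ (W : Type) [Fintype W] (G : SimpleGraph W), AlphaLE G 7 → shannonCap W G ≤ C) →
      ∃ (U : Type) (_ : Fintype U) (G : SimpleGraph U),
        √5 * shannonCap U G < shannonCap (U × Fin 5) (strong G (SimpleGraph.cycleGraph 5))) := by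
  obtain ⟨h1, h2, -, -, -, h6⟩ := Pool.Agent.Results.MP_79d227_co.ProductDefect.result
  refine ⟨h1, h2, fun C hC => ?_⟩
  obtain ⟨⟨U, i, G, hG⟩, -⟩ := h6 C hC
  refine ⟨U, i, G, lt_of_le_of_lt (mul_le_mul_of_nonneg_right ?_ (shannonCap_nonneg G)) hG⟩
  rw [Real.sqrt_le_left (by norm_num)]
  norm_num

end Pool.Agent.W_79d227_h37
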