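import Pool.Agent.W_79d227_h9.C5

/-!
# Multiplication by a vertex-transitive graph and the complements of its powers
-/

set_option autoImplicit false

namespace Pool.Agent.W_79d227_h37

open Pool.Agent.W_79d227_h9 Pool.Agent.W_66dfad_zo

/-- the automorphisms of `H` act transitively on the vertices -/
def VertexTransitive {V : Type} (H : SimpleGraph V) : Prop :=
  ∀ u v : V, ∃ φ : H ≃g H, φ u = v

/-! ### averages over the automorphisms -/

section avg

variable {V : Type} [Fintype V] {H : SimpleGraph V}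

instance finAut : Finite (H ≃g H) :=
  Finite.of_injective (fun φ : H ≃g H => φ.toEquiv) fun a b h => by
    ext x
    exact congrFun (congrArg (fun e : V ≃ V => (e : V → V)) h) x

omit [Fintype V] in
theorem sum_aut_const [Fintype (H ≃g H)] (hH : VertexTransitive H) (f : V → ℝ) (v w : V) :
    ∑ φ : H ≃g H, f (φ v) = ∑ φ : H ≃g H, f (φ w) := by
  obtain ⟨ψ, hψ⟩ := hH v w
  refine (Fintype.sum_bijective (fun φ : H ≃g H => ψ.trans φ) ?_ _ _ ?_).symm
  · refine ⟨fun a b h => ?_, fun b => ⟨ψ.symm.trans b, ?_⟩⟩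
    · ext x
      have := congrArg (fun e : H ≃g H => e (ψ.symm x)) h
      simpa using this
    · ext x
      simp
  · intro φ
    rw [← hψ]
    rfl

theorem sum_aut [Fintype (H ≃g H)] (hH : VertexTransitive H) (f : V → ℝ) (v : V) :
    (Fintype.card V : ℝ) * ∑ φ : H ≃g H, f (φ v) =
      (Fintype.card (H ≃g H) : ℝ) * ∑ u, f u := by
  calc (Fintype.card V : ℝ) * ∑ φ : H ≃g H, f (φ v)
      = ∑ w : V, ∑ φ : H ≃g H, f (φ w) := by
        rw [Finset.sum_congr rfl fun w _ => sum_aut_const hH f w v, Finset.sum_const,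
          Finset.card_univ, nsmul_eq_mul]
    _ = ∑ φ : H ≃g H, ∑ w : V, f (φ w) := Finset.sum_comm
    _ = ∑ _φ : H ≃g H, ∑ w : V, f w := by
        refine Finset.sum_congr rfl fun φ _ => ?_
        exact Fintype.sum_bijective (fun w => φ w) φ.bijective _ _ fun _ => rfl
    _ = _ := by rw [Finset.sum_const, Finset.card_univ, nsmul_eq_mul]

end avg

/-! ### the blow-up -/

/-- an independent set `T` of `G x H` and a code `A` of the complement of `H` give a code of `G` of
size at least `|A| (|T| / |V|) ^ n`, for `H` vertex-transitive -/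
theorem blow {U V : Type} [Fintype U] [Fintype V] [Nonempty V] (G : SimpleGraph U)
    (H : SimpleGraph V) (hH : VertexTransitive H) (T : Finset (U × V))
    (hT : ∀ a ∈ T, ∀ b ∈ T, a ≠ b → ¬ (strong G H).Adj a b) (n : ℕ) (A : Finset (Fin n → V))
    (hA : IsCode Hᶜ A) :
    ∃ I : Finset (Fin n → U), IsCode G I ∧
      (A.card : ℝ) * ((T.card : ℝ) / Fintype.card V) ^ n ≤ I.card := by
  classical
  have : Fintype (H ≃g H) := Fintype.ofFinite _
  have hV : (0 : ℝ) < Fintype.card V := by exact_mod_cast Fintype.card_pos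
  have hAut : (0 : ℝ) < Fintype.card (H ≃g H) := by
    have : Nonempty (H ≃g H) := ⟨RelIso.refl _⟩
    exact_mod_cast Fintype.card_pos
  let t : V → Finset U := fun v => Finset.univ.filter fun u => (u, v) ∈ T
  have ht : ∀ u v, u ∈ t v ↔ (u, v) ∈ T := fun u v => by simp [t]
  have htsum : ∑ v, ((t v).card : ℝ) = T.card := by
    have h1 : T.card = ∑ v, (T.filter fun a => a.2 = v).card :=
      Finset.card_eq_sum_card_fiberwise (f := fun a : U × V => a.2) (t := Finset.univ)
        fun _ _ => Finset.mem_coe.2 (Finset.mem_univ _)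
    rw [h1]
    push_cast
    refine Finset.sum_congr rfl fun v _ => ?_
    norm_cast
    refine Finset.card_bij (fun u _ => (u, v)) ?_ ?_ ?_
    · intro u hu
      rw [Finset.mem_filter]
      exact ⟨(ht u v).1 hu, rfl⟩
    · intro a _ b _ h
      exact congrArg Prod.fst h
    · rintro ⟨u, w⟩ hb
      rw [Finset.mem_filter] at hb
      obtain ⟨hb1, hb2⟩ := hb
      simp only at hb2
      subst hb2
      exact ⟨u, (ht u w).2 hb1, rfl⟩
  -- the separation of two points over different letters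
  have sep : ∀ (u u' : U) (v v' : V), u ∈ t v → u' ∈ t v' → H.Adj v v' →
      u ≠ u' ∧ ¬ G.Adj u u' := by
    intro u u' v v' hu hu' hv
    have hne : (u, v) ≠ (u', v') := fun e => hv.ne (congrArg Prod.snd e)
    have h1 := hT _ ((ht _ _).1 hu) _ ((ht _ _).1 hu') hne
    constructor
    · intro e
      exact h1 ⟨hne, Or.inl e, Or.inr hv⟩
    · intro e
      exact h1 ⟨hne, Or.inr e, Or.inr hv⟩
  have sep' : ∀ (u u' : U) (v : V), u ∈ t v → u' ∈ t v → u ≠ u' → ¬ G.Adj u u' := by
    intro u u' v hu hu' hne e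
    have hne' : (u, v) ≠ (u', v) := fun e => hne (congrArg Prod.fst e)
    exact hT _ ((ht _ _).1 hu) _ ((ht _ _).1 hu') hne' ⟨hne', Or.inr e, Or.inl rfl⟩
  have hAadj : ∀ x ∈ A, ∀ y ∈ A, x ≠ y → ∃ i, H.Adj (x i) (y i) := by
    intro x hx y hy hxy
    obtain ⟨i, h1, h2⟩ := hA x hx y hy hxy
    refine ⟨i, ?_⟩
    by_contra h3
    exact h2 (by rw [SimpleGraph.compl_adj]; exact ⟨h1, h3⟩)
  let I : (Fin n → (H ≃g H)) → Finset (Fin n → U) := fun Φ =>
    A.biUnion fun x => Fintype.piFinset fun i => t (Φ i (x i))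
  have hI : ∀ Φ, IsCode G (I Φ) := by
    intro Φ g hg g' hg' hne
    obtain ⟨x, hx, hgx⟩ := Finset.mem_biUnion.1 hg
    obtain ⟨x', hx', hgx'⟩ := Finset.mem_biUnion.1 hg'
    rw [Fintype.mem_piFinset] at hgx hgx'
    by_cases hxx : x = x'
    · subst hxx
      obtain ⟨i, hi⟩ := Function.ne_iff.1 hne
      exact ⟨i, hi, sep' _ _ _ (hgx i) (hgx' i) hi⟩
    · obtain ⟨i, hi⟩ := hAadj x hx x' hx' hxx
      exact ⟨i, sep _ _ _ _ (hgx i) (hgx' i) ((Φ i).map_adj_iff.2 hi)⟩
  have hcard : ∀ Φ, ((I Φ).card : ℝ) = ∑ x ∈ A, ∏ i, ((t (Φ i (x i))).card : ℝ) := by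
    intro Φ
    rw [Finset.card_biUnion]
    · push_cast
      refine Finset.sum_congr rfl fun x _ => ?_
      rw [Fintype.card_piFinset]
      push_cast
      rfl
    · intro x hx x' hx' hne
      rw [Function.onFun, Finset.disjoint_left]
      intro g hg hg'
      rw [Fintype.mem_piFinset] at hg hg'
      obtain ⟨i, hi⟩ := hAadj x hx x' hx' hne
      exact (sep _ _ _ _ (hg i) (hg' i) ((Φ i).map_adj_iff.2 hi)).1 rfl
  have hsum : ∑ Φ : Fin n → (H ≃g H), ((I Φ).card : ℝ) =
      (Fintype.card (H ≃g H) : ℝ) ^ n * ((A.card : ℝ) * ((T.card : ℝ) / Fintype.card V) ^ n) := by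
    calc ∑ Φ : Fin n → (H ≃g H), ((I Φ).card : ℝ)
        = ∑ Φ : Fin n → (H ≃g H), ∑ x ∈ A, ∏ i, ((t (Φ i (x i))).card : ℝ) :=
          Finset.sum_congr rfl fun Φ _ => hcard Φ
      _ = ∑ x ∈ A, ∑ Φ : Fin n → (H ≃g H), ∏ i, ((t (Φ i (x i))).card : ℝ) := Finset.sum_comm
      _ = ∑ x ∈ A, ∏ i : Fin n, ∑ φ : H ≃g H, ((t (φ (x i))).card : ℝ) := by
          refine Finset.sum_congr rfl fun x _ => ?_
          rw [Finset.prod_univ_sum, Fintype.piFinset_univ]
      _ = ∑ _x ∈ A, ∏ _i : Fin n,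
            ((Fintype.card (H ≃g H) : ℝ) * ((T.card : ℝ) / Fintype.card V)) := by
          refine Finset.sum_congr rfl fun x _ => Finset.prod_congr rfl fun i _ => ?_
          have h1 := sum_aut hH (fun v => ((t v).card : ℝ)) (x i)
          rw [htsum] at h1
          field_simp
          linarith
      _ = _ := by
          rw [Finset.sum_const, Finset.prod_const, Finset.card_univ, Fintype.card_fin,
            nsmul_eq_mul, mul_pow]
          ring
  by_contra hcon
  push Not at hcon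
  have h1 : ∑ Φ : Fin n → (H ≃g H), ((I Φ).card : ℝ) <
      ∑ _Φ : Fin n → (H ≃g H), (A.card : ℝ) * ((T.card : ℝ) / Fintype.card V) ^ n := by
    have : Nonempty (Fin n → (H ≃g H)) := ⟨fun _ => RelIso.refl _⟩
    exact Finset.sum_lt_sum_of_nonempty Finset.univ_nonempty fun Φ _ => hcon (I Φ) (hI Φ)
  rw [hsum, Finset.sum_const, Finset.card_univ, Fintype.card_fun, Fintype.card_fin,
    nsmul_eq_mul] at h1
  push_cast at h1
  exact lt_irrefl _ h1

end Pool.Agent.W_79d227_h37
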